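import Pool.Agent.V11244.CK.MurreB

/-!
# Murre's conjecture (B) and annihilating polynomials of one correspondence on the Chow groups

`𝒱` is a class of smooth projective geometrically irreducible varieties over the field `k` closed
under products (for example all of them), `C` the Chow groups with rational coefficients (in the
form of their formal properties, `IsChowProj`) and `H` a Weil cohomology theory (`IsWeilProj`).

Let `a` be a self-correspondence of degree zero of `X` which separates the cohomology groups:
`P_i(a) = 0` on `H^i(X)` for pairwise coprime polynomials `P_0, …, P_(2d)` with rational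
coefficients, and `P_0(a) ∘ ⋯ ∘ P_(2d)(a)` is nilpotent. Then `X` has a Chow-Kunneth decomposition
`π` whose members are polynomials in `a`, and for each `i` it has the property (B) on `CH^i(X)`,
`F^0 CH^i(X) = CH^i(X)` and `F^(i+1) CH^i(X) = 0`, if and only if some power of
`P_i(a) ∘ P_(i+1)(a) ∘ ⋯ ∘ P_(2i)(a)` annihilates `CH^i(X)`.
-/

set_option autoImplicit false

open Polynomial

universe u v w

namespace Pool.Agent.Results.MP_d6e134_ag.AnnihilatingPolynomial

open Pool.Agent.H914 Pool.Agent.W492.BB Pool.Agent.TH133 Pool.Agent.V11244.CK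

/-- For every correspondence `a` which separates the cohomology groups of `X` there is a
Chow-Kunneth decomposition of `X` by polynomials in `a` such that, for each `i`, the property (B)
holds on `CH^i(X)` if and only if a power of `P_i(a) ⋯ P_(2i)(a)` annihilates `CH^i(X)`. -/
theorem result {k : Type u} [Field k] {𝒱 : VarClass k} (C : TheoryData.{u, v, 0} 𝒱 ℚ)
    [IsChowProj C] {K : Type w} [Field K] (H : WeilTheoryData.{u, v, w} C K) [IsWeilProj H]
    (X : 𝒱.Obj) (a : C.A (X.prod X)) (P : ℕ → ℚ[X]) (h : Separates H a P) :
    ∃ (π : ℕ → C.A (X.prod X)) (E : ℕ → ℚ[X]), IsCK H X π ∧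
      (∀ i ≤ 2 * X.dim, π i = evalAt C a (E i)) ∧
      ∀ i : ℕ, (ckFil C π i 0 = C.gr X i ∧ ckFil C π i (i + 1) = ⊥) ↔
        ∃ m : ℕ, ∀ x ∈ C.gr X i, C.act (evalAt C a (midProd X P i ^ m)) x = 0 :=
  b_main h

end Pool.Agent.Results.MP_d6e134_ag.AnnihilatingPolynomial
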