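import Pool.Agent.V1157.MJ.Mid

/-!
# The first half of Murre's conjecture (B) and the middle-dimensional cycles of self-products
-/

open CategoryTheory AlgebraicGeometry

universe u v w

namespace Pool.Agent.Results.MP_d6e134_ag.NoRaising

open Pool.Agent.H914 Pool.Agent.H914.VarClass Pool.Agent.H914.VarClass.Obj Pool.Agent.W492.BB
  Pool.Agent.TH133 Pool.Agent.V1157.MJ

/-- For a class `𝒱` of varieties closed under products, their Chow groups `C` and a Weil cohomology
`H`: `F^0 = CH` for the single group `CH^d(X × X)`, `d = dim X`, and the product decompositions is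
equivalent to the property that self-correspondences of degree zero of `X` do not raise the weights,
and implies `F^0 = CH` and the independence of the whole filtration for `X`; and `F^0 = CH` for all
varieties is equivalent to `F^0 = CH` for the groups `CH^d(X × X)`. -/
theorem result {k : Type u} [Field k] (𝒱 : VarClass k) (C : TheoryData.{u, v, 0} 𝒱 ℚ)
    [IsChowProj C] (K : Type w) [Field K] (H : WeilTheoryData.{u, v, w} C K) [IsWeilProj H] :
    (∀ X : 𝒱.Obj, (MidB0 H X ↔ DoesNotRaise H X) ∧
      (MidB0 H X → MurreB0 H X ∧ MurreC H X)) ∧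
    ((∀ X : 𝒱.Obj, MurreB0 H X) ↔ ∀ X : 𝒱.Obj, MidB0 H X) := by
  refine ⟨fun X => ⟨midB0_iff X, fun h => ?_⟩, ?_, ?_⟩
  · have h1 := (midB0_iff X).1 h
    exact ⟨murreB0_of_doesNotRaise X h1, murreC_of_doesNotRaise X h1⟩
  · intro h X π ρ hπ hρ γ hγ
    rw [dprod_eq, h (X.prod X) _ (hπ.dual.prod hρ) X.dim]
    exact hγ
  · exact fun h X => murreB0_of_doesNotRaise X ((midB0_iff X).1 (h X))

end Pool.Agent.Results.MP_d6e134_ag.NoRaising
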